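import Mathlib

/-!
# MP_61bf50_co: extending a Golomb ruler to a regular family of disjoint Golomb rulers

For `I ≥ 2 J² (J - 1)` every set of `I J` integers is a disjoint union of `I` Golomb rulers with `J`
marks.  Method: set aside `J² (J - 1)` rulers with `J - 1` marks, cover greedily the few elements that do
not fit in most of them, continue greedily until `J² (J - 1)` elements are left, and match these by Hall's theorem.
-/

namespace Pool.Agent.Results.MP_61bf50_co.AllLargeI

open Finset

/-- A Golomb ruler: the differences `a - b` of two different elements are pairwise distinct. -/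
def IsGolomb (A : Finset ℤ) : Prop :=
  ∀ a ∈ A, ∀ b ∈ A, ∀ c ∈ A, ∀ d ∈ A, a ≠ b → a - b = c - d → a = c ∧ b = d

/-- An `(I, J, n)`-DGR: a family of `I` pairwise disjoint Golomb rulers with `J` marks, each contained
in `{1, ..., n}`. -/
structure IsDGR (I J n : ℕ) (F : Finset (Finset ℤ)) : Prop where
  card : F.card = I
  golomb : ∀ A ∈ F, IsGolomb A
  marks : ∀ A ∈ F, A.card = J
  sub : ∀ A ∈ F, A ⊆ Finset.Icc 1 (n : ℤ)
  disj : (F : Set (Finset ℤ)).PairwiseDisjoint id

/-- `H(I, J)`: the least `n` for which an `(I, J, n)`-DGR exists. -/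
noncomputable def H (I J : ℕ) : ℕ := sInf {n | ∃ F, IsDGR I J n F}

/-- The statement of Q1 for the pair `(I, J)`, without the hypothesis `H(I, J) = I J`: every Golomb
ruler with `J` marks in `{1, ..., (I+1) J}` is a member of a regular `(I+1, J, (I+1) J)`-DGR. -/
def Extends (I J : ℕ) : Prop :=
  ∀ A : Finset ℤ, IsGolomb A → A.card = J → A ⊆ Finset.Icc 1 (((I + 1) * J : ℕ) : ℤ) →
    ∃ F, IsDGR (I + 1) J ((I + 1) * J) F ∧ A ∈ F

/-- `F` is a partition of `S` into Golomb rulers with `J` marks. -/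
structure Part (J : ℕ) (S : Finset ℤ) (F : Finset (Finset ℤ)) : Prop where
  golomb : ∀ A ∈ F, IsGolomb A
  marks : ∀ A ∈ F, A.card = J
  disj : (F : Set (Finset ℤ)).PairwiseDisjoint id
  union : F.biUnion id = S

/-- The sums of two elements of `B`. -/
def sums (B : Finset ℤ) : Finset ℤ := B.sym2.image (Sym2.lift ⟨fun a b : ℤ => a + b, add_comm⟩)

lemma mem_sums {B : Finset ℤ} {a b : ℤ} (ha : a ∈ B) (hb : b ∈ B) : a + b ∈ sums B :=
  mem_image.2 ⟨s(a, b), mk_mem_sym2_iff.2 ⟨ha, hb⟩, rfl⟩

/-- A finite set containing all integers which cannot be added to `B`. -/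
def bad (B : Finset ℤ) : Finset ℤ :=
  (sums B ×ˢ B).image (fun p => p.1 - p.2) ∪ (sums B).image (fun p => p / 2)

/-- The bound `J² (J - 1) / 2` for the number of forbidden integers. -/
def Db (J : ℕ) : ℕ := J.choose 2 * J

lemma subset_bad (B : Finset ℤ) : B ⊆ bad B := by
  intro x hx
  exact mem_union_left _ (mem_image.2 ⟨(x + x, x), mem_product.2 ⟨mem_sums hx hx, hx⟩, by simp⟩)

lemma card_bad {B : Finset ℤ} {J : ℕ} (h : B.card < J) : (bad B).card ≤ Db J := by
  have h0 : (sums B).card ≤ (B.card + 1).choose 2 := by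
    refine card_image_le.trans ?_
    rw [card_sym2]
  have h1 : ((sums B ×ˢ B).image (fun p : ℤ × ℤ => p.1 - p.2)).card
      ≤ (B.card + 1).choose 2 * B.card := by
    refine card_image_le.trans ?_
    rw [card_product]
    exact Nat.mul_le_mul_right _ h0
  have h2 : ((sums B).image (fun p : ℤ => p / 2)).card ≤ (B.card + 1).choose 2 :=
    card_image_le.trans h0
  have h3 : (bad B).card ≤ (B.card + 1).choose 2 * B.card + (B.card + 1).choose 2 :=
    (card_union_le _ _).trans (add_le_add h1 h2)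
  refine h3.trans ?_
  have h4 : (B.card + 1).choose 2 ≤ J.choose 2 := Nat.choose_le_choose 2 h
  calc (B.card + 1).choose 2 * B.card + (B.card + 1).choose 2
      = (B.card + 1).choose 2 * (B.card + 1) := by ring
    _ ≤ J.choose 2 * J := Nat.mul_le_mul h4 h

lemma golomb_insert {B : Finset ℤ} (hB : IsGolomb B) {x : ℤ} (hx : x ∉ bad B) :
    IsGolomb (insert x B) := by
  have h3 : ∀ a ∈ B, ∀ b ∈ B, ∀ c ∈ B, x ≠ a + b - c := by
    intro a ha b hb c hc h
    exact hx (mem_union_left _ (mem_image.2 ⟨(a + b, c), mem_product.2 ⟨mem_sums ha hb, hc⟩, h.symm⟩))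
  have h2 : ∀ a ∈ B, ∀ b ∈ B, 2 * x ≠ a + b := by
    intro a ha b hb h
    refine hx (mem_union_right _ (mem_image.2 ⟨a + b, mem_sums ha hb, ?_⟩))
    show (a + b) / 2 = x
    omega
  intro a ha b hb c hc d hd hab heq
  rw [mem_insert] at ha hb hc hd
  rcases ha with ha | ha <;> rcases hb with hb | hb <;> rcases hc with hc | hc <;>
    rcases hd with hd | hd
  · exact absurd (ha.trans hb.symm) hab
  · exact absurd (ha.trans hb.symm) hab
  · exact absurd (ha.trans hb.symm) hab
  · exact absurd (ha.trans hb.symm) hab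
  · omega
  · omega
  · exact absurd (by omega) (h2 b hb c hc)
  · exact absurd (by omega) (h3 b hb c hc d hd)
  · omega
  · exact absurd (by omega) (h2 a ha d hd)
  · omega
  · exact absurd (by omega) (h3 a ha d hd c hc)
  · omega
  · exact absurd (by omega) (h3 a ha d hd b hb)
  · exact absurd (by omega) (h3 c hc b hb a ha)
  · exact hB a ha b hb c hc d hd hab heq

lemma golomb_empty : IsGolomb ∅ := by
  intro a ha
  simp at ha

lemma golomb_singleton (x : ℤ) : IsGolomb {x} := by
  intro a ha b hb c hc d hd hab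
  rw [mem_singleton] at ha hb
  exact absurd (ha.trans hb.symm) hab

/-- Greedy extension. -/
lemma grow {J : ℕ} {U : Finset ℤ} (hU : Db J < U.card) :
    ∀ (n k : ℕ) (B : Finset ℤ), IsGolomb B → B.card + n = k → k ≤ J →
      ∃ C, B ⊆ C ∧ IsGolomb C ∧ C.card = k ∧ C ⊆ B ∪ U := by
  intro n
  induction n with
  | zero =>
    intro k B hB hk _
    exact ⟨B, Subset.refl _, hB, by omega, subset_union_left⟩
  | succ n ih =>
    intro k B hB hk hkJ
    have hlt : (bad B).card < U.card := (card_bad (J := J) (by omega)).trans_lt hU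
    obtain ⟨x, hxU, hxb⟩ := exists_mem_notMem_of_card_lt_card hlt
    have hxB : x ∉ B := fun h => hxb (subset_bad B h)
    obtain ⟨C, h1, h2, h3, h4⟩ := ih k (insert x B) (golomb_insert hB hxb)
      (by rw [card_insert_of_notMem hxB]; omega) hkJ
    refine ⟨C, (subset_insert x B).trans h1, h2, h3, h4.trans ?_⟩
    intro y hy
    rcases mem_union.1 hy with hy | hy
    · rcases mem_insert.1 hy with rfl | hy
      · exact mem_union_right _ hxU
      · exact mem_union_left _ hy
    · exact mem_union_right _ hy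

lemma exists_ruler {J : ℕ} {U : Finset ℤ} (hU : Db J < U.card) {k : ℕ} (hk : k ≤ J) :
    ∃ C, IsGolomb C ∧ C.card = k ∧ C ⊆ U := by
  obtain ⟨C, _, h2, h3, h4⟩ := grow hU k k ∅ golomb_empty (by simp) hk
  exact ⟨C, h2, h3, by simpa using h4⟩

lemma exists_ruler_mem {J : ℕ} (hJ : 1 ≤ J) {U : Finset ℤ} (hU : Db J < U.card) {x : ℤ}
    (hx : x ∈ U) : ∃ C, IsGolomb C ∧ C.card = J ∧ C ⊆ U ∧ x ∈ C := by
  obtain ⟨C, h1, h2, h3, h4⟩ := grow hU (J - 1) J {x} (golomb_singleton x)
    (by rw [card_singleton]; omega) le_rfl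
  refine ⟨C, h2, h3, h4.trans ?_, h1 (mem_singleton_self x)⟩
  exact union_subset (singleton_subset_iff.2 hx) (Subset.refl _)

/-- Adding a ruler to a partition. -/
lemma Part.cons {J : ℕ} {S C : Finset ℤ} (hC : IsGolomb C) (hc : C.card = J)
    (hCS : C ⊆ S) {F : Finset (Finset ℤ)} (hF : Part J (S \ C) F) : Part J S (insert C F) := by
  have hdis : ∀ A ∈ F, Disjoint C A := by
    intro A hA
    have : A ⊆ S \ C := by
      rw [← hF.union]
      exact subset_biUnion_of_mem id hA
    exact Finset.disjoint_of_subset_right this disjoint_sdiff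
  refine ⟨?_, ?_, ?_, ?_⟩
  · intro A hA
    rcases mem_insert.1 hA with rfl | hA
    · exact hC
    · exact hF.golomb A hA
  · intro A hA
    rcases mem_insert.1 hA with rfl | hA
    · exact hc
    · exact hF.marks A hA
  · rw [coe_insert]
    refine hF.disj.insert ?_
    intro A hA _
    exact hdis A hA
  · rw [biUnion_insert, hF.union]
    exact union_sdiff_of_subset hCS

lemma Part.card_eq {J : ℕ} {S : Finset ℤ} {F : Finset (Finset ℤ)} (hF : Part J S F) :
    F.card * J = S.card := by
  rw [← hF.union, card_biUnion (fun A hA B hB hAB => hF.disj hA hB hAB)]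
  have h : ∀ A ∈ F, (id A).card = J := hF.marks
  rw [sum_congr rfl h, sum_const, smul_eq_mul]

/-- Many disjoint small rulers. -/
lemma many {J k : ℕ} (hk : k ≤ J) {U : Finset ℤ} :
    ∀ m : ℕ, m * k + Db J < U.card → ∃ P : ℕ → Finset ℤ,
      (∀ i < m, IsGolomb (P i) ∧ (P i).card = k ∧ P i ⊆ U) ∧
      (∀ i < m, ∀ j < m, i ≠ j → Disjoint (P i) (P j)) := by
  intro m
  induction m with
  | zero => intro _; exact ⟨fun _ => ∅, by simp, by simp⟩
  | succ m ih =>
    intro hU
    obtain ⟨P, h1, h2⟩ := ih (by nlinarith)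
    set W := (range m).biUnion P with hW
    have hWc : W.card ≤ m * k := by
      refine card_biUnion_le.trans ?_
      rw [sum_congr rfl (fun i hi => (h1 i (mem_range.1 hi)).2.1), sum_const, smul_eq_mul, card_range]
    have hc : Db J < (U \ W).card := by
      have := le_card_sdiff W U
      have h3 : (m + 1) * k = m * k + k := by ring
      omega
    obtain ⟨C, c1, c2, c3⟩ := exists_ruler hc hk
    have hCd : ∀ i < m, Disjoint (P i) C := by
      intro i hi
      have : P i ⊆ W := subset_biUnion_of_mem P (mem_range.2 hi)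
      exact Finset.disjoint_of_subset_right c3 (Finset.disjoint_of_subset_left this disjoint_sdiff)
    refine ⟨Function.update P m C, ?_, ?_⟩
    · intro i hi
      rcases Nat.lt_succ_iff_lt_or_eq.1 hi with hi | rfl
      · rw [Function.update_of_ne hi.ne]; exact h1 i hi
      · rw [Function.update_self]; exact ⟨c1, c2, c3.trans sdiff_subset⟩
    · intro i hi j hj hij
      rcases Nat.lt_succ_iff_lt_or_eq.1 hi with hi | rfl <;>
        rcases Nat.lt_succ_iff_lt_or_eq.1 hj with hj | rfl
      · rw [Function.update_of_ne hi.ne, Function.update_of_ne hj.ne]; exact h2 i hi j hj hij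
      · rw [Function.update_of_ne hi.ne, Function.update_self]; exact hCd i hi
      · rw [Function.update_of_ne hj.ne, Function.update_self]; exact (hCd j hj).symm
      · exact absurd rfl hij

/-- The last step: Hall's theorem. -/
lemma hall_step {J D : ℕ} (hJ : 1 ≤ J) (hD : D = Db J) (P : ℕ → Finset ℤ)
    (h1 : ∀ i < 2 * D, IsGolomb (P i) ∧ (P i).card = J - 1)
    (h2 : ∀ i < 2 * D, ∀ j < 2 * D, i ≠ j → Disjoint (P i) (P j))
    (U : Finset ℤ) (hU : U.card = 2 * D) (hd : ∀ i < 2 * D, Disjoint (P i) U)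
    (hdeg : ∀ x ∈ U, ((range (2 * D)).filter (fun i => x ∈ bad (P i))).card ≤ D) :
    ∃ F, Part J ((range (2 * D)).biUnion P ∪ U) F := by
  classical
  let t : Fin (2 * D) → Finset ℤ := fun i => U.filter (fun x => x ∉ bad (P i))
  have htc : ∀ i, D ≤ (t i).card := by
    intro i
    have hb : (bad (P i)).card ≤ D :=
      (card_bad (J := J) (by have := (h1 i i.2).2; omega)).trans hD.ge
    have hf : (U.filter (fun x => x ∈ bad (P i))).card ≤ D :=
      (card_le_card (fun x hx => (mem_filter.1 hx).2)).trans hb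
    have hs := card_filter_add_card_filter_not (s := U) (fun x => x ∈ bad (P i))
    have : (t i).card = (U.filter (fun x => ¬ x ∈ bad (P i))).card := rfl
    omega
  have hall : ∀ s : Finset (Fin (2 * D)), s.card ≤ (s.biUnion t).card := by
    intro s
    by_cases hs : s.card ≤ D
    · rcases s.eq_empty_or_nonempty with rfl | ⟨i, hi⟩
      · simp
      · exact (hs.trans (htc i)).trans (card_le_card (subset_biUnion_of_mem t hi))
    · have hsU : U ⊆ s.biUnion t := by
        intro x hx
        by_contra hcon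
        have hall' : ∀ i ∈ s, x ∈ bad (P i) := by
          intro i hi
          by_contra hb
          exact hcon (mem_biUnion.2 ⟨i, hi, mem_filter.2 ⟨hx, hb⟩⟩)
        have hsub : s.image (fun i : Fin (2 * D) => (i : ℕ)) ⊆
            (range (2 * D)).filter (fun i => x ∈ bad (P i)) := by
          intro j hj
          obtain ⟨i, hi, rfl⟩ := mem_image.1 hj
          exact mem_filter.2 ⟨mem_range.2 i.2, hall' i hi⟩
        have := card_le_card hsub
        rw [card_image_of_injective _ Fin.val_injective] at this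
        have := hdeg x hx
        omega
      have h3 := card_le_card hsU
      have h4 : s.card ≤ 2 * D := by simpa using card_le_univ s
      omega
  obtain ⟨f, hf, hft⟩ := (all_card_le_biUnion_card_iff_exists_injective t).1 hall
  have hfU : ∀ i : Fin (2 * D), f i ∈ U := fun i => (mem_filter.1 (hft i)).1
  have hfb : ∀ i : Fin (2 * D), f i ∉ bad (P i) := fun i => (mem_filter.1 (hft i)).2
  have hfP : ∀ i j : Fin (2 * D), f i ∉ P j := by
    intro i j h
    exact (Finset.disjoint_left.1 (hd j j.2)) h (hfU i)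
  have himg : univ.image f = U := by
    refine eq_of_subset_of_card_le ?_ ?_
    · intro x hx
      obtain ⟨i, _, rfl⟩ := mem_image.1 hx
      exact hfU i
    · rw [card_image_of_injective _ hf, card_univ, Fintype.card_fin, hU]
  let g : Fin (2 * D) → Finset ℤ := fun i => insert (f i) (P i)
  refine ⟨univ.image g, ?_, ?_, ?_, ?_⟩
  · intro A hA
    obtain ⟨i, _, rfl⟩ := mem_image.1 hA
    exact golomb_insert (h1 i i.2).1 (hfb i)
  · intro A hA
    obtain ⟨i, _, rfl⟩ := mem_image.1 hA
    show (insert (f i) (P i)).card = J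
    rw [card_insert_of_notMem (hfP i i), (h1 i i.2).2]
    omega
  · intro A hA B hB hAB
    obtain ⟨i, _, rfl⟩ := mem_image.1 (mem_coe.1 hA)
    obtain ⟨j, _, rfl⟩ := mem_image.1 (mem_coe.1 hB)
    have hij : i ≠ j := fun h => hAB (by rw [h])
    show Disjoint (insert (f i) (P i)) (insert (f j) (P j))
    rw [disjoint_insert_left, disjoint_insert_right, mem_insert]
    refine ⟨?_, hfP j i, h2 i i.2 j j.2 (fun h => hij (Fin.ext h))⟩
    rintro (h | h)
    · exact hij (hf h)
    · exact hfP i j h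
  · ext x
    simp only [mem_biUnion, mem_image, mem_univ, true_and, mem_union, mem_range, id]
    constructor
    · rintro ⟨A, ⟨i, rfl⟩, hx⟩
      rcases mem_insert.1 hx with rfl | hx
      · exact Or.inr (hfU i)
      · exact Or.inl ⟨i, i.2, hx⟩
    · rintro (⟨i, hi, hx⟩ | hx)
      · exact ⟨g ⟨i, hi⟩, ⟨_, rfl⟩, mem_insert_of_mem hx⟩
      · rw [← himg] at hx
        obtain ⟨i, _, rfl⟩ := mem_image.1 hx
        exact ⟨g i, ⟨_, rfl⟩, mem_insert_self _ _⟩

lemma step_up {J I₀ : ℕ} (base : ∀ S : Finset ℤ, S.card = I₀ * J → ∃ F, Part J S F)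
    (pick : ∀ S : Finset ℤ, (I₀ + 1) * J ≤ S.card → ∃ C ⊆ S, IsGolomb C ∧ C.card = J) :
    ∀ n : ℕ, ∀ S : Finset ℤ, S.card = (I₀ + n) * J → ∃ F, Part J S F := by
  intro n
  induction n with
  | zero => exact base
  | succ n ih =>
    intro S hS
    have e : (I₀ + (n + 1)) * J = (I₀ + n) * J + J := by ring
    obtain ⟨C, hC, c1, c2⟩ := pick S (by rw [hS]; nlinarith [Nat.zero_le (n * J)])
    obtain ⟨F, hF⟩ := ih (S \ C) (by rw [card_sdiff_of_subset hC, hS, c2]; omega)
    exact ⟨_, hF.cons c1 c2 hC⟩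

lemma part_empty (J : ℕ) : Part J ∅ ∅ := by
  refine ⟨by simp, by simp, by simp, by simp⟩

lemma small_two {J : ℕ} (hJ : J ≤ 2) (I : ℕ) (S : Finset ℤ) (hS : S.card = I * J) :
    ∃ F, Part J S F := by
  refine step_up (J := J) (I₀ := 0) ?_ ?_ I S (by rw [hS]; ring)
  · intro S hS
    have : S = ∅ := card_eq_zero.1 (by rw [hS]; ring)
    rw [this]
    exact ⟨∅, part_empty J⟩
  · intro S hS
    obtain ⟨C, hC, hc⟩ := exists_subset_card_eq (s := S) (n := J) (by linarith)
    refine ⟨C, hC, ?_, hc⟩
    interval_cases J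
    · rw [card_eq_zero.1 hc]; exact golomb_empty
    · obtain ⟨x, rfl⟩ := card_eq_one.1 hc
      exact golomb_singleton x
    · obtain ⟨x, y, hxy, rfl⟩ := card_eq_two.1 hc
      intro a ha b hb c hc d hd hab heq
      simp only [mem_insert, mem_singleton] at ha hb hc hd
      omega

/-- Every set of `I J` integers, `I ≥ 2 J² (J - 1)`, is partitioned into Golomb rulers with `J` marks. -/
lemma main {I J : ℕ} (hJ : 2 ≤ J) (hI : 4 * Db J ≤ I) (S : Finset ℤ) (hS : S.card = I * J) :
    ∃ F, Part J S F := by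
  classical
  obtain ⟨D, hD⟩ : ∃ D, D = Db J := ⟨_, rfl⟩
  have hD1 : 1 ≤ D := by
    rw [hD]
    exact Nat.mul_pos (Nat.choose_pos hJ) (by omega)
  rw [← hD] at hI
  have hDJ : 4 * D * J ≤ I * J := Nat.mul_le_mul_right _ hI
  have hk : (2 * D) * (J - 1) + 2 * D = 2 * D * J := by
    obtain ⟨j, rfl⟩ : ∃ j, J = j + 1 := ⟨J - 1, by omega⟩
    simp only [Nat.add_sub_cancel]
    ring
  obtain ⟨P, h1, h2⟩ := many (J := J) (k := J - 1) (by omega) (U := S) (2 * D) (by
    rw [← hD, hS]
    nlinarith)
  set W := (range (2 * D)).biUnion P with hW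
  have hWc : W.card = (2 * D) * (J - 1) := by
    rw [hW, card_biUnion (fun i hi j hj hij => h2 i (mem_range.1 hi) j (mem_range.1 hj) hij),
      sum_congr rfl (fun i hi => (h1 i (mem_range.1 hi)).2.1), sum_const, smul_eq_mul, card_range]
  have hWS : W ⊆ S := by
    intro x hx
    obtain ⟨i, hi, hx⟩ := mem_biUnion.1 hx
    exact (h1 i (mem_range.1 hi)).2.2 hx
  let T : Finset ℤ := S.filter (fun x => D < ((range (2 * D)).filter (fun i => x ∈ bad (P i))).card)
  have hT : T.card ≤ 2 * D := by
    have := card_mul_le_card_mul (s := T) (t := range (2 * D)) (fun x i => x ∈ bad (P i))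
      (m := D + 1) (n := D)
      (fun x hx => (mem_filter.1 hx).2)
      (fun i hi => by
        have hb : (bad (P i)).card ≤ D :=
          (card_bad (J := J) (by have := (h1 i (mem_range.1 hi)).2.1; omega)).trans hD.ge
        exact (card_le_card (fun x hx => (mem_filter.1 hx).2)).trans hb)
    rw [card_range] at this
    by_contra hcon
    push Not at hcon
    nlinarith
  have key : ∀ (n : ℕ) (U : Finset ℤ), U ⊆ S → Disjoint W U → U.card = 2 * D + n * J →
      (U ∩ T).card ≤ n → ∃ F, Part J (W ∪ U) F := by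
    intro n
    induction n with
    | zero =>
      intro U hUS hWU hUc hUT
      refine hall_step (by omega) hD P (fun i hi => ⟨(h1 i hi).1, (h1 i hi).2.1⟩) h2 U (by omega) ?_ ?_
      · intro i hi
        exact Finset.disjoint_of_subset_left (subset_biUnion_of_mem P (mem_range.2 hi)) hWU
      · intro x hx
        by_contra hcon
        push Not at hcon
        have : x ∈ U ∩ T := mem_inter.2 ⟨hx, mem_filter.2 ⟨hUS hx, hcon⟩⟩
        have h0 : U ∩ T = ∅ := card_eq_zero.1 (by omega)
        rw [h0] at this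
        simp at this
    | succ n ih =>
      intro U hUS hWU hUc hUT
      have hUc' : U.card = 2 * D + n * J + J := by rw [hUc]; ring
      have hbig : Db J < U.card := by rw [← hD]; omega
      obtain ⟨x, hxU, hx⟩ : ∃ x ∈ U, (U ∩ T).Nonempty → x ∈ T := by
        by_cases hne : (U ∩ T).Nonempty
        · obtain ⟨x, hx⟩ := hne
          exact ⟨x, (mem_inter.1 hx).1, fun _ => (mem_inter.1 hx).2⟩
        · obtain ⟨x, hx⟩ : U.Nonempty := card_pos.1 (by omega)
          exact ⟨x, hx, fun h => absurd h hne⟩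
      obtain ⟨C, c1, c2, c3, c4⟩ := exists_ruler_mem (by omega) hbig hxU
      have hCW : Disjoint W C := Finset.disjoint_of_subset_right c3 hWU
      obtain ⟨F, hF⟩ := ih (U \ C) (sdiff_subset.trans hUS)
        (Finset.disjoint_of_subset_right sdiff_subset hWU)
        (by rw [card_sdiff_of_subset c3]; omega)
        (by
          by_cases hne : (U ∩ T).Nonempty
          · have hlt : ((U \ C) ∩ T).card < (U ∩ T).card := by
              refine card_lt_card ⟨inter_subset_inter_right sdiff_subset, fun hss => ?_⟩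
              have := hss (mem_inter.2 ⟨hxU, hx hne⟩)
              exact (mem_sdiff.1 (mem_inter.1 this).1).2 c4
            omega
          · have h0 : U ∩ T = ∅ := not_nonempty_iff_eq_empty.1 hne
            have : (U \ C) ∩ T ⊆ ∅ := by
              rw [← h0]
              exact inter_subset_inter_right sdiff_subset
            rw [subset_empty.1 this]
            simp)
      have heq : (W ∪ U) \ C = W ∪ (U \ C) := by
        ext y
        simp only [mem_sdiff, mem_union]
        constructor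
        · rintro ⟨h | h, hc⟩
          · exact Or.inl h
          · exact Or.inr ⟨h, hc⟩
        · rintro (h | ⟨h, hc⟩)
          · exact ⟨Or.inl h, fun hc => (Finset.disjoint_left.1 hCW) h hc⟩
          · exact ⟨Or.inr h, hc⟩
      rw [← heq] at hF
      exact ⟨_, hF.cons c1 c2 (c3.trans subset_union_right)⟩
  obtain ⟨n, hn⟩ : ∃ n, I = 2 * D + n := ⟨I - 2 * D, by omega⟩
  have hUc : (S \ W).card = 2 * D + n * J := by
    rw [card_sdiff_of_subset hWS, hS, hWc, hn]
    have : (2 * D + n) * J = 2 * D * J + n * J := by ring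
    omega
  obtain ⟨F, hF⟩ := key n (S \ W) sdiff_subset disjoint_sdiff hUc
    ((card_le_card inter_subset_right).trans (by omega))
  rw [union_sdiff_of_subset hWS] at hF
  exact ⟨F, hF⟩

/-- The extension property follows from the partition property. -/
lemma extends_of {I J : ℕ} (hJ : 1 ≤ J) (h : ∀ S : Finset ℤ, S.card = I * J → ∃ F, Part J S F) :
    Extends I J := by
  intro A hA hAc hAs
  have hcard : (Finset.Icc 1 (((I + 1) * J : ℕ) : ℤ)).card = (I + 1) * J := by
    rw [Int.card_Icc]; omega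
  obtain ⟨F, hF⟩ := h (Finset.Icc 1 (((I + 1) * J : ℕ) : ℤ) \ A) (by
    rw [card_sdiff_of_subset hAs, hcard, hAc]
    have : (I + 1) * J = I * J + J := by ring
    omega)
  have hG := hF.cons hA hAc hAs
  refine ⟨insert A F, ⟨?_, hG.golomb, hG.marks, ?_, hG.disj⟩, mem_insert_self _ _⟩
  · have := hG.card_eq
    rw [hcard] at this
    exact Nat.eq_of_mul_eq_mul_right hJ this
  · intro B hB
    have := subset_biUnion_of_mem id hB
    rwa [hG.union] at this

lemma isDGR_of_part {I J : ℕ} (hJ : 1 ≤ J) {F : Finset (Finset ℤ)}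
    (hF : Part J (Finset.Icc 1 ((I * J : ℕ) : ℤ)) F) : IsDGR I J (I * J) F := by
  refine ⟨?_, hF.golomb, hF.marks, ?_, hF.disj⟩
  · have := hF.card_eq
    rw [Int.card_Icc] at this
    refine Nat.eq_of_mul_eq_mul_right hJ ?_
    rw [this]; omega
  · intro B hB
    have := subset_biUnion_of_mem id hB
    rwa [hF.union] at this

lemma le_of_isDGR {I J n : ℕ} {F : Finset (Finset ℤ)} (hF : IsDGR I J n F) : I * J ≤ n := by
  have h : ∀ A ∈ F, (id A).card = J := hF.marks
  have h1 : (F.biUnion id).card = I * J := by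
    rw [card_biUnion (fun A hA B hB hAB => hF.disj hA hB hAB), sum_congr rfl h, sum_const,
      smul_eq_mul, hF.card]
  have h2 : F.biUnion id ⊆ Finset.Icc 1 (n : ℤ) := by
    intro x hx
    obtain ⟨A, hA, hx⟩ := mem_biUnion.1 hx
    exact hF.sub A hA hx
  have h3 := card_le_card h2
  rw [h1, Int.card_Icc] at h3
  omega

lemma H_eq {I J : ℕ} (hJ : 1 ≤ J) (h : ∀ S : Finset ℤ, S.card = I * J → ∃ F, Part J S F) :
    H I J = I * J := by
  obtain ⟨F, hF⟩ := h (Finset.Icc 1 ((I * J : ℕ) : ℤ)) (by rw [Int.card_Icc]; omega)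
  have hmem : I * J ∈ {n | ∃ F, IsDGR I J n F} := ⟨F, isDGR_of_part hJ hF⟩
  refine le_antisymm (Nat.sInf_le hmem) ?_
  obtain ⟨G, hG⟩ := Nat.sInf_mem (⟨_, hmem⟩ : {n | ∃ F, IsDGR I J n F}.Nonempty)
  exact le_of_isDGR hG

lemma golomb_three {x y z : ℤ} (h1 : x < y) (h2 : y < z) (h : x + z ≠ 2 * y) :
    IsGolomb {x, y, z} := by
  intro a ha b hb c hc d hd hab heq
  simp only [mem_insert, mem_singleton] at ha hb hc hd
  omega

lemma two_triples {S : Finset ℤ} (hS : S.card = 6) {x y z u v w : ℤ} (hx : x ∈ S) (hy : y ∈ S)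
    (hz : z ∈ S) (hu : u ∈ S) (hv : v ∈ S) (hw : w ∈ S) (h1 : x < y) (h2 : y < z)
    (h3 : x + z ≠ 2 * y) (h4 : u < v) (h5 : v < w) (h6 : u + w ≠ 2 * v)
    (hne : (x ≠ u ∧ x ≠ v ∧ x ≠ w) ∧ (y ≠ u ∧ y ≠ v ∧ y ≠ w) ∧ (z ≠ u ∧ z ≠ v ∧ z ≠ w)) :
    ∃ F, Part 3 S F := by
  have c1 : ({x, y, z} : Finset ℤ).card = 3 := card_eq_three.2 ⟨x, y, z, by omega, by omega, by omega, rfl⟩
  have c2 : ({u, v, w} : Finset ℤ).card = 3 := card_eq_three.2 ⟨u, v, w, by omega, by omega, by omega, rfl⟩
  have s1 : ({x, y, z} : Finset ℤ) ⊆ S := by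
    intro t ht
    simp only [mem_insert, mem_singleton] at ht
    rcases ht with rfl | rfl | rfl <;> assumption
  have s2 : ({u, v, w} : Finset ℤ) ⊆ S \ {x, y, z} := by
    intro t ht
    simp only [mem_insert, mem_singleton] at ht
    simp only [mem_sdiff, mem_insert, mem_singleton]
    rcases ht with rfl | rfl | rfl
    · exact ⟨hu, by omega⟩
    · exact ⟨hv, by omega⟩
    · exact ⟨hw, by omega⟩
  have c3 : (S \ {x, y, z}).card = 3 := by rw [card_sdiff_of_subset s1, hS, c1]
  have e : ({u, v, w} : Finset ℤ) = S \ {x, y, z} := eq_of_subset_of_card_le s2 (by rw [c3, c2])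
  have hp : Part 3 (S \ {x, y, z}) (insert {u, v, w} ∅) := by
    refine Part.cons (golomb_three h4 h5 h6) c2 s2 ?_
    rw [← e, sdiff_self]
    exact part_empty 3
  exact ⟨_, hp.cons (golomb_three h1 h2 h3) c1 s1⟩

lemma small_six (S : Finset ℤ) (hS : S.card = 6) : ∃ F, Part 3 S F := by
  have hmem : ∀ i : Fin 6, S.orderEmbOfFin hS i ∈ S := fun i => orderEmbOfFin_mem S hS i
  have hlt : ∀ i j : Fin 6, i < j → S.orderEmbOfFin hS i < S.orderEmbOfFin hS j :=
    fun i j hij => (S.orderEmbOfFin hS).strictMono hij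
  have h01 := hlt 0 1 (by decide)
  have h12 := hlt 1 2 (by decide)
  have h23 := hlt 2 3 (by decide)
  have h34 := hlt 3 4 (by decide)
  have h45 := hlt 4 5 (by decide)
  have ma := hmem 0
  have mb := hmem 1
  have mc := hmem 2
  have md := hmem 3
  have me := hmem 4
  have mf := hmem 5
  generalize S.orderEmbOfFin hS 0 = a at *
  generalize S.orderEmbOfFin hS 1 = b at *
  generalize S.orderEmbOfFin hS 2 = c at *
  generalize S.orderEmbOfFin hS 3 = d at *
  generalize S.orderEmbOfFin hS 4 = e at *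
  generalize S.orderEmbOfFin hS 5 = f at *
  have key : (a + c ≠ 2 * b ∧ d + f ≠ 2 * e) ∨ (a + d ≠ 2 * b ∧ c + f ≠ 2 * e) ∨
      (a + e ≠ 2 * b ∧ c + f ≠ 2 * d) ∨ (a + f ≠ 2 * b ∧ c + e ≠ 2 * d) ∨
      (a + d ≠ 2 * c ∧ b + f ≠ 2 * e) ∨ (a + e ≠ 2 * c ∧ b + f ≠ 2 * d) ∨
      (a + f ≠ 2 * c ∧ b + e ≠ 2 * d) ∨ (a + e ≠ 2 * d ∧ b + f ≠ 2 * c) ∨
      (a + f ≠ 2 * d ∧ b + e ≠ 2 * c) ∨ (a + f ≠ 2 * e ∧ b + d ≠ 2 * c) := by
    omega
  rcases key with h | h | h | h | h | h | h | h | h | h
  · exact two_triples hS ma mb mc md me mf (by omega) (by omega) h.1 (by omega) (by omega) h.2 (by omega)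
  · exact two_triples hS ma mb md mc me mf (by omega) (by omega) h.1 (by omega) (by omega) h.2 (by omega)
  · exact two_triples hS ma mb me mc md mf (by omega) (by omega) h.1 (by omega) (by omega) h.2 (by omega)
  · exact two_triples hS ma mb mf mc md me (by omega) (by omega) h.1 (by omega) (by omega) h.2 (by omega)
  · exact two_triples hS ma mc md mb me mf (by omega) (by omega) h.1 (by omega) (by omega) h.2 (by omega)
  · exact two_triples hS ma mc me mb md mf (by omega) (by omega) h.1 (by omega) (by omega) h.2 (by omega)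
  · exact two_triples hS ma mc mf mb md me (by omega) (by omega) h.1 (by omega) (by omega) h.2 (by omega)
  · exact two_triples hS ma md me mb mc mf (by omega) (by omega) h.1 (by omega) (by omega) h.2 (by omega)
  · exact two_triples hS ma md mf mb mc me (by omega) (by omega) h.1 (by omega) (by omega) h.2 (by omega)
  · exact two_triples hS ma me mf mb mc md (by omega) (by omega) h.1 (by omega) (by omega) h.2 (by omega)

lemma small_three {I : ℕ} (hI : 2 ≤ I) (S : Finset ℤ) (hS : S.card = I * 3) : ∃ F, Part 3 S F := by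
  obtain ⟨n, rfl⟩ : ∃ n, I = 2 + n := ⟨I - 2, by omega⟩
  refine step_up (J := 3) (I₀ := 2) (fun S hS => small_six S (by omega)) ?_ n S hS
  intro S hS
  obtain ⟨T, hT, hTc⟩ := exists_subset_card_eq (s := S) (n := 4) (by omega)
  have hmem : ∀ i : Fin 4, T.orderEmbOfFin hTc i ∈ S := fun i => hT (orderEmbOfFin_mem T hTc i)
  have hlt : ∀ i j : Fin 4, i < j → T.orderEmbOfFin hTc i < T.orderEmbOfFin hTc j :=
    fun i j hij => (T.orderEmbOfFin hTc).strictMono hij
  have h01 := hlt 0 1 (by decide)
  have h12 := hlt 1 2 (by decide)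
  have h23 := hlt 2 3 (by decide)
  have ma := hmem 0
  have mb := hmem 1
  have mc := hmem 2
  have md := hmem 3
  generalize T.orderEmbOfFin hTc 0 = a at *
  generalize T.orderEmbOfFin hTc 1 = b at *
  generalize T.orderEmbOfFin hTc 2 = c at *
  generalize T.orderEmbOfFin hTc 3 = d at *
  by_cases h : a + c = 2 * b
  · refine ⟨{a, b, d}, ?_, golomb_three h01 (h12.trans h23) (by omega),
      card_eq_three.2 ⟨a, b, d, by omega, by omega, by omega, rfl⟩⟩
    intro t ht
    simp only [mem_insert, mem_singleton] at ht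
    rcases ht with rfl | rfl | rfl <;> assumption
  · refine ⟨{a, b, c}, ?_, golomb_three h01 h12 h,
      card_eq_three.2 ⟨a, b, c, by omega, by omega, by omega, rfl⟩⟩
    intro t ht
    simp only [mem_insert, mem_singleton] at ht
    rcases ht with rfl | rfl | rfl <;> assumption

lemma H_one_three : H 1 3 ≠ 1 * 3 := by
  intro h
  have hne : {n | ∃ F, IsDGR 1 3 n F}.Nonempty := by
    by_contra hcon
    have h0 : H 1 3 = 0 := by
      unfold H
      rw [Set.not_nonempty_iff_eq_empty.1 hcon]
      exact Nat.sInf_empty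
    omega
  obtain ⟨F, hF⟩ : ∃ F, IsDGR 1 3 (H 1 3) F := Nat.sInf_mem hne
  rw [h] at hF
  obtain ⟨A, rfl⟩ := card_eq_one.1 hF.card
  have hA := hF.golomb A (mem_singleton_self A)
  have hs := hF.sub A (mem_singleton_self A)
  have hc := hF.marks A (mem_singleton_self A)
  have e : A = Finset.Icc 1 ((1 * 3 : ℕ) : ℤ) := eq_of_subset_of_card_le hs (by
    rw [hc, Int.card_Icc]; norm_num)
  subst e
  have := hA 2 (by simp) 1 (by simp) 3 (by simp) 2 (by simp) (by norm_num) (by norm_num)
  omega

lemma four_mul_Db (J : ℕ) : 4 * Db J = 2 * J ^ 2 * (J - 1) := by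
  have h := Nat.choose_two_right J
  have h2 : 2 ∣ J * (J - 1) := (Nat.even_mul_pred_self J).two_dvd
  unfold Db
  rw [h]
  obtain ⟨t, ht⟩ := h2
  rw [ht, Nat.mul_div_cancel_left _ (by norm_num)]
  calc 4 * (t * J) = 2 * J * (2 * t) := by ring
    _ = 2 * J * (J * (J - 1)) := by rw [ht]
    _ = 2 * J ^ 2 * (J - 1) := by ring

lemma large {I J : ℕ} (hJ : 1 ≤ J) (hI : 2 * J ^ 2 * (J - 1) ≤ I) (S : Finset ℤ)
    (hS : S.card = I * J) : ∃ F, Part J S F := by
  rcases Nat.lt_or_ge J 2 with h | h
  · exact small_two (by omega) I S hS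
  · exact main h (by rw [four_mul_Db]; exact hI) S hS

/-- For `I ≥ 2 J² (J - 1)` every set of `I J` integers is partitioned into Golomb rulers with `J` marks; in
particular `H(I, J) = I J` and the statement of Q1 holds for `(I, J)`.  For `J ≤ 3` the statement of Q1
holds for all `I`. -/
theorem result :
    (∀ I J : ℕ, 1 ≤ J → 2 * J ^ 2 * (J - 1) ≤ I →
      (∀ S : Finset ℤ, S.card = I * J → ∃ F, Part J S F) ∧ H I J = I * J ∧ Extends I J) ∧
    (∀ I J : ℕ, 1 ≤ I → 1 ≤ J → J ≤ 3 → H I J = I * J → Extends I J) := by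
  refine ⟨fun I J hJ hI => ?_, fun I J hI hJ hJ3 hH => ?_⟩
  · have h := fun S hS => large hJ hI S hS
    exact ⟨h, H_eq hJ h, extends_of hJ h⟩
  · rcases Nat.lt_or_ge J 3 with h | h
    · exact extends_of hJ (fun S hS => small_two (by omega) I S hS)
    · obtain rfl : J = 3 := by omega
      rcases Nat.lt_or_ge I 2 with h2 | h2
      · obtain rfl : I = 1 := by omega
        exact absurd hH H_one_three
      · exact extends_of hJ (fun S hS => small_three h2 S hS)

end Pool.Agent.Results.MP_61bf50_co.AllLargeI
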